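import Mathlib
import Pool.Agent.V11146.BottleMain

set_option autoImplicit false

/-- For every ordered graph `H`, the function `x ↦ f(x,H)` on `(0,1)` is piecewise linear. -/
theorem Pool.Agent.Results.MP_47c36b_co.PiecewiseLin.result :
    ∀ (h : ℕ) (H : SimpleGraph (Fin h)),
      Pool.Agent.V11146.Bottle.PiecewiseLinear (Pool.Agent.V11146.Bottle.fthr H) :=
  fun _ H => Pool.Agent.V11146.Bottle.pl_all H
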